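import Pool.Agent.W676.KS.Det

/-!
Selections from the fibres of a map.
-/

namespace Pool.Agent.W676.KS

open Matrix

/-- Selection of one vector out of each group of `2 ^ k`. -/
theorem group_selection {n : Type*} [Fintype n] [DecidableEq n] {I : Type*} [Fintype I]
    [DecidableEq I] (k : ℕ) : ∀ {v : I × (Fin k → Bool) → n → ℂ} (_ : Span v) {ε : ℝ}
    (_ : 0 < ε) (_ : ε ≤ (1 / 32) * (1 / 4) ^ k)
    (_ : ∀ e, ∀ ξ : n → ℂ, ‖star (v e) ⬝ᵥ ξ‖ ^ 2 ≤ ε * ∑ e', ‖star (v e') ⬝ᵥ ξ‖ ^ 2),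
    ∃ σ : I → (Fin k → Bool), ∀ ξ : n → ℂ, (1 / 4) ^ k * ∑ e, ‖star (v e) ⬝ᵥ ξ‖ ^ 2 ≤
      ∑ i, ‖star (v (i, σ i)) ⬝ᵥ ξ‖ ^ 2 := by
  induction k with
  | zero =>
    intro v _ ε _ _ _
    refine ⟨fun _ => Fin.elim0, fun ξ => ?_⟩
    rw [pow_zero, one_mul, Fintype.sum_prod_type]
    apply Finset.sum_le_sum
    intro i _
    have h1 : (Finset.univ : Finset (Fin 0 → Bool)) = {Fin.elim0} := by
      ext y
      simp only [Finset.mem_univ, Finset.mem_singleton, true_iff]
      funext j; exact j.elim0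
    rw [h1, Finset.sum_singleton]
  | succ k ih =>
    intro v hv ε hε0 hε1 hε
    -- regroup
    let w : (I × (Fin k → Bool)) × Bool → n → ℂ := fun e => v (e.1.1, Fin.cons e.2 e.1.2)
    let J : ((I × (Fin k → Bool)) × Bool) ≃ I × (Fin (k + 1) → Bool) :=
      { toFun := fun e => (e.1.1, Fin.cons e.2 e.1.2)
        invFun := fun e => ((e.1, Fin.tail e.2), e.2 0)
        left_inv := fun e => by simp
        right_inv := fun e => by simp }
    have hsum : ∀ g : I × (Fin (k + 1) → Bool) → ℝ, ∑ e, g (J e) = ∑ e, g e :=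
      fun g => J.sum_comp g
    have hwv : ∀ e, w e = v (J e) := fun e => rfl
    have hws : ∀ ξ : n → ℂ, ∑ e, ‖star (w e) ⬝ᵥ ξ‖ ^ 2 = ∑ e, ‖star (v e) ⬝ᵥ ξ‖ ^ 2 :=
      fun ξ => hsum (fun e => ‖star (v e) ⬝ᵥ ξ‖ ^ 2)
    have hw : Span w := by
      intro ξ h
      apply hv
      intro e
      have := h (J.symm e)
      rwa [hwv, Equiv.apply_symm_apply] at this
    have hp4 : (0 : ℝ) < (1 / 4) ^ k := by positivity
    have hp1 : ((1 : ℝ) / 4) ^ k ≤ 1 := pow_le_one₀ (by norm_num) (by norm_num)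
    have hε1' : ε ≤ (1 / 32) * ((1 / 4) ^ k * (1 / 4)) := by rwa [pow_succ] at hε1
    have hε32 : ε ≤ 1 / 32 * (1 / 4) := by nlinarith
    obtain ⟨τ, hτ⟩ := pair_selection hw hε0 (by linarith) (fun e ξ => by
      rw [hws]; exact hε (J e) ξ)
    have hsq : √(2 * ε) ≤ 1 / 4 := by
      rw [show (1 : ℝ) / 4 = √((1 / 4) ^ 2) by rw [Real.sqrt_sq (by norm_num)]]
      apply Real.sqrt_le_sqrt
      norm_num
      linarith
    let u : I × (Fin k → Bool) → n → ℂ := fun e => v (e.1, Fin.cons (τ e) e.2)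
    have hτ' : ∀ ξ : n → ℂ, (1 / 4) * ∑ e, ‖star (v e) ⬝ᵥ ξ‖ ^ 2 ≤
        ∑ e, ‖star (u e) ⬝ᵥ ξ‖ ^ 2 := by
      intro ξ
      have h1 := hτ ξ
      rw [hws] at h1
      have h2 : 0 ≤ ∑ e, ‖star (v e) ⬝ᵥ ξ‖ ^ 2 := Finset.sum_nonneg (fun _ _ => sq_nonneg _)
      have h3 : (1 / 4) * ∑ e, ‖star (v e) ⬝ᵥ ξ‖ ^ 2 ≤
          (1 / 2 - √(2 * ε)) * ∑ e, ‖star (v e) ⬝ᵥ ξ‖ ^ 2 :=
        mul_le_mul_of_nonneg_right (by linarith) h2
      exact h3.trans h1
    have hu : Span u := by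
      intro ξ h
      apply hv
      have h1 := hτ' ξ
      have h2 : ∑ e, ‖star (u e) ⬝ᵥ ξ‖ ^ 2 = 0 :=
        Finset.sum_eq_zero (fun e _ => by rw [h e]; simp)
      rw [h2] at h1
      have h3 : ∑ e, ‖star (v e) ⬝ᵥ ξ‖ ^ 2 = 0 :=
        le_antisymm (by linarith) (Finset.sum_nonneg (fun _ _ => sq_nonneg _))
      intro e
      have := (Finset.sum_eq_zero_iff_of_nonneg (fun _ _ => sq_nonneg _)).1 h3 e
        (Finset.mem_univ e)
      simpa using this
    obtain ⟨σ, hσ⟩ := ih hu (ε := 4 * ε) (by linarith) (by linarith) (by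
      intro e ξ
      have h1 := hε (e.1, Fin.cons (τ e) e.2) ξ
      have h2 := hτ' ξ
      have h3 : ε * ∑ e', ‖star (v e') ⬝ᵥ ξ‖ ^ 2 ≤ ε * (4 * ∑ e, ‖star (u e) ⬝ᵥ ξ‖ ^ 2) :=
        mul_le_mul_of_nonneg_left (by linarith) hε0.le
      calc _ ≤ _ := h1
        _ ≤ _ := h3
        _ = _ := by ring)
    refine ⟨fun i => Fin.cons (τ (i, σ i)) (σ i), fun ξ => ?_⟩
    have h1 := hσ ξ
    have h2 := hτ' ξ
    calc (1 / 4) ^ (k + 1) * ∑ e, ‖star (v e) ⬝ᵥ ξ‖ ^ 2
        = (1 / 4) ^ k * ((1 / 4) * ∑ e, ‖star (v e) ⬝ᵥ ξ‖ ^ 2) := by rw [pow_succ]; ring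
      _ ≤ (1 / 4) ^ k * ∑ e, ‖star (u e) ⬝ᵥ ξ‖ ^ 2 := mul_le_mul_of_nonneg_left h2 hp4.le
      _ ≤ _ := h1

/-- **Selection from the fibres of a map, for a subspace of functions with small coordinates.** -/
theorem fibre_selection (N : ℕ) {Y X : Type*} [Fintype Y] (f : Y → X)
    (hf : ∀ y, {y' | f y' = f y}.ncard ≤ N) (V : Submodule ℂ (Y → ℂ))
    (hV : ∀ ξ ∈ V, ∀ y, ‖ξ y‖ ^ 2 ≤ (1 / 32) * (1 / 4) ^ N * ∑ y', ‖ξ y'‖ ^ 2) :
    ∃ W : Finset Y, (∀ a ∈ W, ∀ b ∈ W, f a = f b → a = b) ∧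
      ∀ ξ ∈ V, (1 / 4) ^ N * ∑ y, ‖ξ y‖ ^ 2 ≤ ∑ y ∈ W, ‖ξ y‖ ^ 2 := by
  classical
  -- labels
  have hlab : ∀ x : Set.range f, ∃ g : {y // f y = x.1} → (Fin N → Bool),
      Function.Injective g := by
    rintro ⟨_, y, rfl⟩
    have h1 : Fintype.card {y' // f y' = f y} ≤ Fintype.card (Fin N → Bool) := by
      have h2 := hf y
      have h3 : Fintype.card {y' // f y' = f y} = {y' | f y' = f y}.ncard := by
        rw [← Nat.card_eq_fintype_card]; rfl
      have h4 : Fintype.card (Fin N → Bool) = 2 ^ N := by simp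
      rw [h3, h4]
      exact h2.trans Nat.lt_two_pow_self.le
    obtain ⟨g⟩ := Function.Embedding.nonempty_of_card_le h1
    exact ⟨g, g.injective⟩
  choose g hg using hlab
  let fr : Y → Set.range f := fun y => ⟨f y, y, rfl⟩
  let lab : Y → (Fin N → Bool) := fun y => g (fr y) ⟨y, rfl⟩
  let j : Y → Set.range f × (Fin N → Bool) := fun y => (fr y, lab y)
  have hj : Function.Injective j := by
    intro a b hab
    have h1 : fr a = fr b := congrArg Prod.fst hab
    have h2 : lab a = lab b := congrArg Prod.snd hab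
    have h3 : f a = f b := congrArg Subtype.val h1
    have h4 : lab b = g (fr a) ⟨b, h3.symm⟩ := by
      have : ∀ (x : Set.range f) (hx : x = fr b) (hb : f b = x.1), g x ⟨b, hb⟩ = lab b := by
        intro x hx hb; subst hx; rfl
      exact (this (fr a) h1 h3.symm).symm
    rw [h4] at h2
    have := hg (fr a) h2
    exact congrArg Subtype.val this
  -- basis of V
  let b := Module.finBasis ℂ V
  let w : Y → (Fin (Module.finrank ℂ V) → ℂ) := fun y k => star ((b k : Y → ℂ) y)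
  let toV : (Fin (Module.finrank ℂ V) → ℂ) → V := fun α => ∑ k, α k • b k
  have hw : ∀ y α, star (w y) ⬝ᵥ α = (toV α : Y → ℂ) y := by
    intro y α
    simp only [w, toV, dotProduct, Pi.star_apply, star_star]
    rw [Submodule.coe_sum, Finset.sum_apply]
    apply Finset.sum_congr rfl
    intro k _
    simp [mul_comm]
  let v : Set.range f × (Fin N → Bool) → (Fin (Module.finrank ℂ V) → ℂ) :=
    Function.extend j w 0
  have : Fintype (Set.range f) := Fintype.ofFinite _
  have hsum : ∀ α, ∑ e, ‖star (v e) ⬝ᵥ α‖ ^ 2 = ∑ y, ‖(toV α : Y → ℂ) y‖ ^ 2 := by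
    intro α
    symm
    apply Fintype.sum_of_injective j hj
    · intro e he
      have : v e = 0 := by
        show Function.extend j w 0 e = 0
        rw [Function.extend_apply' _ _ _ (by rintro ⟨a, rfl⟩; exact he ⟨a, rfl⟩)]; rfl
      rw [this]; simp
    · intro y
      have : v (j y) = w y := hj.extend_apply _ _ _
      rw [this, hw]
  have hspan : Span v := by
    intro α h
    have h0 := hsum α
    have h1 : ∑ e, ‖star (v e) ⬝ᵥ α‖ ^ 2 = 0 :=
      Finset.sum_eq_zero (fun e _ => by rw [h e]; simp)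
    rw [h1] at h0
    have h2 : (toV α : Y → ℂ) = 0 := by
      funext y
      have := (Finset.sum_eq_zero_iff_of_nonneg (fun _ _ => sq_nonneg _)).1 h0.symm y
        (Finset.mem_univ y)
      simpa using this
    have h3 : toV α = 0 := Subtype.ext h2
    funext k
    exact (Fintype.linearIndependent_iff.1 b.linearIndependent) α h3 k
  obtain ⟨σ, hσ⟩ := group_selection N hspan (ε := (1 / 32) * (1 / 4) ^ N) (by positivity) le_rfl
    (by
      intro e α
      rw [hsum]
      by_cases he : ∃ y, j y = e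
      · obtain ⟨y, rfl⟩ := he
        have : v (j y) = w y := hj.extend_apply _ _ _
        rw [this, hw]
        exact hV _ (toV α).2 y
      · have : v e = 0 := by
          show Function.extend j w 0 e = 0
          rw [Function.extend_apply' _ _ _ he]; rfl
        rw [this]
        have h5 : 0 ≤ (1 / 32) * (1 / 4) ^ N * ∑ y, ‖(toV α : Y → ℂ) y‖ ^ 2 :=
          mul_nonneg (by positivity) (Finset.sum_nonneg (fun _ _ => sq_nonneg _))
        simpa using h5)
  refine ⟨Finset.univ.filter (fun y => σ (fr y) = lab y), ?_, ?_⟩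
  · intro a ha c hc hac
    apply hj
    have h1 : fr a = fr c := Subtype.ext hac
    have h2 := (Finset.mem_filter.1 ha).2
    have h3 := (Finset.mem_filter.1 hc).2
    show (fr a, lab a) = (fr c, lab c)
    rw [← h2, ← h3, h1]
  · intro ξ hξ
    -- coordinates of ξ
    obtain ⟨α, hα⟩ : ∃ α, toV α = ⟨ξ, hξ⟩ :=
      ⟨fun k => b.repr ⟨ξ, hξ⟩ k, b.sum_repr ⟨ξ, hξ⟩⟩
    have h1 := hσ α
    rw [hsum, hα] at h1
    refine h1.trans (le_of_eq ?_)
    symm
    apply Finset.sum_of_injOn fr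
    · intro a ha c hc hac
      apply hj
      have h2 := (Finset.mem_filter.1 ha).2
      have h3 := (Finset.mem_filter.1 hc).2
      show (fr a, lab a) = (fr c, lab c)
      rw [← h2, ← h3, hac]
    · intro a _; exact Finset.mem_coe.2 (Finset.mem_univ _)
    · intro i _ hi
      have : v (i, σ i) = 0 := by
        show Function.extend j w 0 (i, σ i) = 0
        rw [Function.extend_apply' _ _ _ (by
          rintro ⟨y, hy⟩
          apply hi
          refine ⟨y, ?_, congrArg Prod.fst hy⟩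
          rw [Finset.coe_filter]
          refine ⟨Finset.mem_univ _, ?_⟩
          have h4 : fr y = i := congrArg Prod.fst hy
          have h5 : lab y = σ i := congrArg Prod.snd hy
          rw [h4, h5])]
        rfl
      rw [this]; simp
    · intro y hy
      have h2 := (Finset.mem_filter.1 hy).2
      have h3 : v (fr y, σ (fr y)) = w y := by
        rw [h2]; exact hj.extend_apply _ _ _
      rw [h3, hw, hα]

end Pool.Agent.W676.KS
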