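import Mathlib

/-!
Real multi-affine functions with the Rayleigh inequality: barrier step and selection step.
-/

namespace Pool.Agent.W676.KS

variable {U : Type*} [DecidableEq U]

/-- Difference derivative in one coordinate. -/
def D (i : U) (P : (U → ℝ) → ℝ) : (U → ℝ) → ℝ :=
  fun x => P (Function.update x i 1) - P (Function.update x i 0)

/-- Affine in each coordinate. -/
def Aff (P : (U → ℝ) → ℝ) : Prop :=
  ∀ (x : U → ℝ) (i : U) (t : ℝ), P (Function.update x i t) = P x + (t - x i) * D i P x

/-- Rayleigh inequality at all real points. -/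
def Ray (P : (U → ℝ) → ℝ) : Prop :=
  ∀ (a c : U), a ≠ c → ∀ x, P x * D a (D c P) x ≤ D a P x * D c P x

lemma D_update_self (i : U) (P : (U → ℝ) → ℝ) (x : U → ℝ) (t : ℝ) :
    D i P (Function.update x i t) = D i P x := by
  simp [D]

lemma D_self (i : U) (P : (U → ℝ) → ℝ) (x : U → ℝ) : D i (D i P) x = 0 := by
  simp [D]

lemma D_comm (i j : U) (P : (U → ℝ) → ℝ) (x : U → ℝ) : D i (D j P) x = D j (D i P) x := by
  by_cases h : i = j
  · subst h; rfl
  · simp only [D]
    rw [Function.update_comm h, Function.update_comm h, Function.update_comm h,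
      Function.update_comm h]
    ring

lemma Aff.dd {P : (U → ℝ) → ℝ} (h : Aff P) (j : U) : Aff (D j P) := by
  intro x i t
  by_cases hij : i = j
  · subst hij
    rw [D_update_self, D_self]; ring
  · rw [D_comm i j]
    have e : ∀ s : ℝ, P (Function.update (Function.update x i t) j s) =
        P (Function.update x j s) + (t - x i) * D i P (Function.update x j s) := by
      intro s
      rw [Function.update_comm hij, h (Function.update x j s) i t,
        Function.update_of_ne hij]
    show P _ - P _ = (P _ - P _) + (t - x i) * (D i P _ - D i P _)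
    rw [e, e]; ring

/-- Moving two coordinates. -/
lemma Aff.two {P : (U → ℝ) → ℝ} (h : Aff P) {u v : U} (huv : u ≠ v) (x : U → ℝ) (a b : ℝ) :
    P (Function.update (Function.update x u (x u + a)) v (x v + b)) =
      P x + a * D u P x + b * D v P x + a * b * D u (D v P) x := by
  have hv : Function.update x u (x u + a) v = x v := Function.update_of_ne huv.symm _ _
  have h1 := h (Function.update x u (x u + a)) v (x v + b)
  rw [hv] at h1
  rw [h1, h x u (x u + a), (h.dd v) x u (x u + a)]
  ring

/-- Positive on the orthant above `z`. -/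
def Above (P : (U → ℝ) → ℝ) (z : U → ℝ) : Prop := ∀ w, z ≤ w → 0 < P w

lemma le_update {x w : U → ℝ} (h : x ≤ w) {k : U} {t : ℝ} (ht : x k ≤ t) :
    x ≤ Function.update w k t := by
  intro e
  by_cases he : e = k
  · subst he; simpa using ht
  · simpa [Function.update_of_ne he] using h e

lemma nonneg_D {Q : (U → ℝ) → ℝ} (hA : Aff Q) {z : U → ℝ} (h : ∀ w, z ≤ w → 0 ≤ Q w) (j : U)
    {w : U → ℝ} (hw : z ≤ w) : 0 ≤ D j Q w := by
  by_contra hneg
  push Not at hneg
  have hP := h w hw
  set c : ℝ := - D j Q w with hc
  have hc0 : 0 < c := by linarith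
  set s : ℝ := (Q w + 1) / c with hs
  have hs0 : 0 < s := div_pos (by linarith) hc0
  have := h (Function.update w j (w j + s)) (le_update hw (by have := hw j; linarith))
  rw [hA w j (w j + s)] at this
  have e : (w j + s - w j) * D j Q w = - (Q w + 1) := by
    have : D j Q w = - c := by rw [hc]; ring
    rw [this, hs]; field_simp; ring
  rw [e] at this
  linarith

lemma Above.D_nonneg {P : (U → ℝ) → ℝ} (hA : Aff P) {z : U → ℝ} (h : Above P z) (j : U)
    {w : U → ℝ} (hw : z ≤ w) : 0 ≤ D j P w :=
  nonneg_D hA (fun w hw => (h w hw).le) j hw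

/-- one-coordinate monotonicity of the logarithmic derivative -/
lemma mono_step {P : (U → ℝ) → ℝ} (hA : Aff P) (hR : Ray P) (j k : U) (x : U → ℝ) {t : ℝ}
    (ht : x k ≤ t) :
    D j P (Function.update x k t) * P x ≤ D j P x * P (Function.update x k t) := by
  rw [hA x k t, (hA.dd j) x k t]
  by_cases h : k = j
  · subst h
    rw [D_self]
    nlinarith [mul_nonneg (sub_nonneg.2 ht) (mul_self_nonneg (D k P x))]
  · have := hR k j h x
    nlinarith [mul_nonneg (sub_nonneg.2 ht) (sub_nonneg.2 this)]

variable [Fintype U]

/-- Induction along the coordinates. -/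
lemma coord_induction {z w : U → ℝ} (hzw : z ≤ w) (Q : (U → ℝ) → Prop) (h0 : Q z)
    (hstep : ∀ x k t, z ≤ x → x ≤ w → x k ≤ t → t ≤ w k → Q x → Q (Function.update x k t)) : Q w := by
  classical
  have key : ∀ S : Finset U, Q (fun e => if e ∈ S then w e else z e) := by
    intro S
    induction S using Finset.induction_on with
    | empty => simpa using h0
    | insert a S ha ih =>
      have e : (fun e => if e ∈ insert a S then w e else z e) =
          Function.update (fun e => if e ∈ S then w e else z e) a (w a) := by
        funext e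
        by_cases h : e = a
        · subst h; simp
        · simp [h]
      rw [e]
      refine hstep _ a (w a) ?_ ?_ ?_ le_rfl ih
      · intro e
        show z e ≤ if e ∈ S then w e else z e
        split_ifs
        · exact hzw e
        · exact le_rfl
      · intro e
        show (if e ∈ S then w e else z e) ≤ w e
        split_ifs
        · exact le_rfl
        · exact hzw e
      · simp only [ha, if_false]; exact hzw a
  simpa using key Finset.univ

lemma Above.mono {P : (U → ℝ) → ℝ} (hA : Aff P) (hR : Ray P) {z : U → ℝ} (h : Above P z) (j : U)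
    {w : U → ℝ} (hw : z ≤ w) : D j P w * P z ≤ D j P z * P w := by
  refine coord_induction hw (fun x => D j P x * P z ≤ D j P z * P x) le_rfl ?_
  intro x k t hzx _ hkt _ ih
  have h1 := mono_step hA hR j k x hkt
  have hx := h x hzx
  have hz := h z le_rfl
  have hx' := h (Function.update x k t) (le_update hzx ((hzx k).trans hkt))
  -- ratio chain
  have a1 : D j P (Function.update x k t) / P (Function.update x k t) ≤ D j P x / P x := by
    rw [div_le_div_iff₀ hx' hx]; linarith
  have a2 : D j P x / P x ≤ D j P z / P z := by
    rw [div_le_div_iff₀ hx hz]; linarith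
  have := a1.trans a2
  rwa [div_le_div_iff₀ hx' hz] at this

/-- The operator `1 - ∂_u ∂_v`. -/
def op (u v : U) (P : (U → ℝ) → ℝ) : (U → ℝ) → ℝ := fun x => P x - D u (D v P) x

/-- lowering two coordinates -/
def low (u v : U) (η : ℝ) (w : U → ℝ) : U → ℝ :=
  Function.update (Function.update w u (w u - η)) v (w v - η)

omit [Fintype U] in
lemma op_low {P : (U → ℝ) → ℝ} (hA : Aff P) {u v : U} (huv : u ≠ v) (η : ℝ) (w : U → ℝ) :
    op u v P w = P (low u v η w) + η * D u P (low u v η w) + η * D v P (low u v η w)
      + η * η * D u (D v P) (low u v η w) - D u (D v P) (low u v η w) := by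
  set x := low u v η w with hx
  have e : w = Function.update (Function.update x u (x u + η)) v (x v + η) := by
    funext k
    by_cases hv : k = v
    · subst hv; simp [hx, low]
    · by_cases hu : k = u
      · subst hu; simp [hx, low, Function.update_of_ne hv]
      · simp [hx, low, Function.update_of_ne hv, Function.update_of_ne hu]
  have e2 : D u (D v P) w = D u (D v P) x := by
    rw [hx, low]
    conv_rhs => rw [D_comm u v, D_update_self, D_comm v u, D_update_self]
  show P w - D u (D v P) w = _
  rw [e2, e, Aff.two hA huv]

/-- Barrier step: positivity. -/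
lemma barrier_pos {P : (U → ℝ) → ℝ} (hA : Aff P) (hR : Ray P) {z : U → ℝ} (h : Above P z)
    {u v : U} (huv : u ≠ v) {η : ℝ}
    (hφ : D u P z + D v P z ≤ η * P z) {w : U → ℝ} (hw : z ≤ low u v η w) :
    0 < op u v P w := by
  rw [op_low hA huv η w]
  set x := low u v η w
  have hx := h x hw
  have hz := h z le_rfl
  have hu := Above.D_nonneg hA h u hw
  have hv := Above.D_nonneg hA h v hw
  have mu := Above.mono hA hR h u hw
  have mv := Above.mono hA hR h v hw
  have hr := hR u v huv x
  have hφx : D u P x + D v P x ≤ η * P x := by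
    have : (D u P x + D v P x) * P z ≤ η * P x * P z := by nlinarith
    exact le_of_mul_le_mul_right this hz
  have hκ : D u (D v P) x ≤ η * (D u P x + D v P x) := by
    have h2 : P x * D u (D v P) x ≤ P x * (η * (D u P x + D v P x)) := by
      have : D u P x * D v P x ≤ (D u P x + D v P x) * (D u P x + D v P x) := by nlinarith
      nlinarith [mul_le_mul_of_nonneg_right hφx (add_nonneg hu hv)]
    exact le_of_mul_le_mul_left h2 hx
  have hκ0 : 0 ≤ D u (D v P) x := by
    exact nonneg_D (hA.dd v) (fun w hw => Above.D_nonneg hA h v hw) u hw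
  have := mul_nonneg (mul_self_nonneg η) hκ0
  linarith

omit [Fintype U] in
/-- Barrier step: the logarithmic derivatives do not increase. -/
lemma barrier_next {P : (U → ℝ) → ℝ} (hA : Aff P) (hR : Ray P) {z : U → ℝ} (h : Above P z)
    {u v : U} (huv : u ≠ v) {η : ℝ} (h0 : 0 ≤ η) (h1 : η ≤ 1)
    (hφ : D u P z + D v P z ≤ η * P z) {w : U → ℝ} (hw : z = low u v η w) {j : U}
    (hju : j ≠ u) (hjv : j ≠ v) :
    D j (op u v P) w * P z ≤ D j P z * op u v P w := by
  have hz := h z le_rfl
  have hu := Above.D_nonneg hA h u (le_refl z)
  have hv := Above.D_nonneg hA h v (le_refl z)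
  have hκ0 : 0 ≤ D u (D v P) z :=
    nonneg_D (hA.dd v) (fun w hw => Above.D_nonneg hA h v hw) u le_rfl
  have e1 := op_low hA huv η w
  rw [← hw] at e1
  have e2 : D j (op u v P) w = D j P z + η * D u (D j P) z + η * D v (D j P) z
      + η * η * D u (D v (D j P)) z - D u (D v (D j P)) z := by
    have := op_low (hA.dd j) huv η w
    rw [← hw] at this
    rw [← this]
    show (P _ - D u (D v P) _) - (P _ - D u (D v P) _) = (P _ - P _) - D u (D v (D j P)) w
    have e3 : D u (D v (D j P)) w = D j (D u (D v P)) w := by
      have : D v (D j P) = D j (D v P) := by funext x; exact D_comm v j P x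
      rw [this, D_comm u j]
    rw [e3]
    simp only [D]
    ring
  -- Rayleigh along the diagonal
  set q0 := P z
  set qu := D u P z
  set qv := D v P z
  set κ := D u (D v P) z with hκ
  set n0 := D j P z
  set nu := D u (D j P) z
  set nv := D v (D j P) z
  set κj := D u (D v (D j P)) z
  have hquad : ∀ s : ℝ, 0 ≤ (nu + nv) * κ * (s * s) - κj * (qu + qv) * (s * s)
      + 2 * (n0 * κ - κj * q0) * s + (n0 * (qu + qv) - (nu + nv) * q0) := by
    intro s
    set y := Function.update (Function.update z u (z u + s)) v (z v + s) with hy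
    have ru := hR u j hju.symm y
    have rv := hR v j hjv.symm y
    have f0 : P y = q0 + s * qu + s * qv + s * s * κ := hA.two huv z s s
    have fj : D j P y = n0 + s * nu + s * nv + s * s * κj := (hA.dd j).two huv z s s
    have fu : D u P y = qu + s * κ := by
      have := (hA.dd u).two huv z s s
      rw [this, D_self]
      have e4 : D u (D v (D u P)) z = 0 := by
        have : D v (D u P) = D u (D v P) := by funext x; exact D_comm v u P x
        rw [this, D_self]
      rw [e4, D_comm v u]; ring
    have fv : D v P y = qv + s * κ := by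
      have := (hA.dd v).two huv z s s
      rw [this, D_self]
      have e4 : D u (D v (D v P)) z = 0 := by
        have : D v (D v P) = 0 := by funext x; exact D_self v P x
        rw [this]; simp [D]
      rw [e4]; ring
    have fuj : D u (D j P) y = nu + s * κj := by
      have := ((hA.dd j).dd u).two huv z s s
      rw [this, D_self]
      have e4 : D u (D v (D u (D j P))) z = 0 := by
        have : D v (D u (D j P)) = D u (D v (D j P)) := by funext x; exact D_comm v u _ x
        rw [this, D_self]
      rw [e4, D_comm v u]; ring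
    have fvj : D v (D j P) y = nv + s * κj := by
      have := ((hA.dd j).dd v).two huv z s s
      rw [this, D_self]
      have e4 : D u (D v (D v (D j P))) z = 0 := by
        have : D v (D v (D j P)) = 0 := by funext x; exact D_self v _ x
        rw [this]; simp [D]
      rw [e4]; ring
    rw [f0, fj, fu, fuj] at ru
    rw [f0, fj, fv, fvj] at rv
    have e5 : (nu + nv) * κ * (s * s) - κj * (qu + qv) * (s * s)
      + 2 * (n0 * κ - κj * q0) * s + (n0 * (qu + qv) - (nu + nv) * q0) =
      ((qu + s * κ) * (n0 + s * nu + s * nv + s * s * κj)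
        - (q0 + s * qu + s * qv + s * s * κ) * (nu + s * κj)) +
      ((qv + s * κ) * (n0 + s * nu + s * nv + s * s * κj)
        - (q0 + s * qu + s * qv + s * s * κ) * (nv + s * κj)) := by ring
    rw [e5]
    linarith
  set R1 := n0 * (qu + qv) - (nu + nv) * q0 with hR1
  set R2 := n0 * κ - κj * q0 with hR2
  set R3 := (nu + nv) * κ - κj * (qu + qv) with hR3
  have hR1p : 0 ≤ R1 := by have := hquad 0; simpa using this
  have hdisc : R2 * R2 ≤ R1 * R3 := by
    have := discrim_le_zero (a := R3) (b := 2 * R2) (c := R1) (by
      intro s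
      have := hquad s
      have e6 : R3 * (s * s) + 2 * R2 * s + R1 = (nu + nv) * κ * (s * s) - κj * (qu + qv) * (s * s)
        + 2 * (n0 * κ - κj * q0) * s + (n0 * (qu + qv) - (nu + nv) * q0) := by
        rw [hR3, hR2, hR1]; ring
      rw [e6]; exact this)
    rw [discrim] at this
    have e7 : (2 * R2) ^ 2 - 4 * R3 * R1 = 4 * (R2 * R2 - R1 * R3) := by ring
    rw [e7] at this
    linarith
  have hpl : q0 * R3 = (qu + qv) * R2 - κ * R1 := by rw [hR1, hR2, hR3]; ring
  have hR2b : q0 * R2 ≤ (qu + qv) * R1 := by
    by_cases hneg : R2 ≤ 0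
    · exact (mul_nonpos_of_nonneg_of_nonpos hz.le hneg).trans
        (mul_nonneg (add_nonneg hu hv) hR1p)
    · push Not at hneg
      have h3 : (q0 * R2) * R2 ≤ ((qu + qv) * R1) * R2 := by
        have h5 : q0 * (R2 * R2) ≤ q0 * (R1 * R3) := mul_le_mul_of_nonneg_left hdisc hz.le
        have h6 : q0 * (R1 * R3) = R1 * ((qu + qv) * R2 - κ * R1) := by rw [← hpl]; ring
        have h7 := mul_nonneg hκ0 (mul_nonneg hR1p hR1p)
        have h8 : R1 * ((qu + qv) * R2 - κ * R1) = ((qu + qv) * R1) * R2 - κ * (R1 * R1) := by ring
        have h9 : (q0 * R2) * R2 = q0 * (R2 * R2) := by ring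
        rw [h9]
        linarith
      exact le_of_mul_le_mul_right h3 hneg
  rw [e1, e2]
  -- final inequality
  have hfin : (1 - η * η) * R2 ≤ η * R1 := by
    by_cases hneg : R2 ≤ 0
    · have : 0 ≤ 1 - η * η := by nlinarith
      exact (mul_nonpos_of_nonneg_of_nonpos this hneg).trans (mul_nonneg h0 hR1p)
    · push Not at hneg
      have h3 : q0 * R2 ≤ q0 * (η * R1) := by
        have := mul_le_mul_of_nonneg_right hφ hR1p
        have h5 : q0 * (η * R1) = η * q0 * R1 := by ring
        rw [h5]; linarith
      have h4 : R2 ≤ η * R1 := le_of_mul_le_mul_left h3 hz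
      have h5 := mul_nonneg (mul_nonneg h0 h0) hneg.le
      have h6 : (1 - η * η) * R2 = R2 - η * η * R2 := by ring
      rw [h6]; linarith
  have hdiff : n0 * (q0 + η * qu + η * qv + η * η * κ - κ) -
      (n0 + η * nu + η * nv + η * η * κj - κj) * q0 = η * R1 - (1 - η * η) * R2 := by
    rw [hR1, hR2]; ring
  linarith

/-- Positivity of the average of the two children implies positivity of the base. -/
lemma base_pos {H : (U → ℝ) → ℝ} (hA : Aff H) (hR : Ray H) {M y0 : U → ℝ}
    (hbig : ∀ w, M ≤ w → 0 < H w) {u v : U}
    (hpar : ∀ w, y0 ≤ w → 0 < H w - D u H w - D v H w) : Above H y0 := by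
  classical
  have key : ∀ S : Finset U, ∀ w, y0 ≤ w → (∀ e, e ∉ S → M e ≤ w e) → 0 < H w := by
    intro S
    induction S using Finset.induction_on with
    | empty => intro w _ h; exact hbig w (fun e => h e (by simp))
    | insert k S hk ih =>
      intro w hw hwM
      by_contra hneg
      push Not at hneg
      set w' := Function.update w k (max (w k) (M k)) with hw'
      have hpos : 0 < H w' := by
        apply ih w' (le_update hw ((hw k).trans (le_max_left _ _)))
        intro e he
        by_cases hek : e = k
        · subst hek; simp [hw']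
        · rw [hw', Function.update_of_ne hek]
          exact hwM e (by simp [hek, he])
      have hval := hA w k (max (w k) (M k))
      rw [← hw'] at hval
      have hsl : 0 < D k H w := by
        by_contra hD
        push Not at hD
        have : (max (w k) (M k) - w k) * D k H w ≤ 0 :=
          mul_nonpos_of_nonneg_of_nonpos (sub_nonneg.2 (le_max_left _ _)) hD
        linarith
      set t : ℝ := w k + (- H w) / D k H w with ht
      have htk : w k ≤ t := by
        have : 0 ≤ (- H w) / D k H w := div_nonneg (by linarith) hsl.le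
        linarith
      set x := Function.update w k t with hx
      have hx0 : H x = 0 := by
        rw [hx, hA w k t, ht]; field_simp; ring
      have hxD : 0 < D k H x := by rw [hx, D_update_self]; exact hsl
      have hxy : y0 ≤ x := le_update hw ((hw k).trans htk)
      have hp := hpar x hxy
      have hnn : ∀ c : U, 0 ≤ D c H x := by
        intro c
        by_cases hc : c = k
        · subst hc; exact hxD.le
        · have := hR k c (Ne.symm hc) x
          rw [hx0, zero_mul] at this
          exact nonneg_of_mul_nonneg_right this hxD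
      have h1 := hnn u
      have h2 := hnn v
      rw [hx0] at hp
      linarith
  intro w hw
  exact key Finset.univ w hw (fun e he => absurd (Finset.mem_univ e) he)

/-- Selection step: one of the two children is positive on the whole orthant. -/
lemma select_step {H : (U → ℝ) → ℝ} (hA : Aff H) (hR : Ray H) {M y0 : U → ℝ}
    (hbig : ∀ w, M ≤ w → 0 < H w) {u v : U}
    (hpar : ∀ w, y0 ≤ w → 0 < H w - D u H w - D v H w) :
    (∀ w, y0 ≤ w → 0 < H w - 2 * D u H w) ∨ (∀ w, y0 ≤ w → 0 < H w - 2 * D v H w) := by
  have hab := base_pos hA hR hbig hpar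
  have h0 := hpar y0 le_rfl
  have hz := hab y0 le_rfl
  have key : ∀ j : U, 2 * D j H y0 < H y0 → ∀ w, y0 ≤ w → 0 < H w - 2 * D j H w := by
    intro j hj w hw
    have hm := Above.mono hA hR hab j hw
    have hpw := hab w hw
    have : 2 * D j H w * H y0 < H w * H y0 := by nlinarith
    have := lt_of_mul_lt_mul_right this hz.le
    linarith
  by_cases h : 2 * D u H y0 < H y0
  · exact Or.inl (key u h)
  · right
    apply key v
    push Not at h
    linarith

end Pool.Agent.W676.KS
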