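import Pool.Agent.H990R2.SF.Stab
import Pool.Agent.W676.KS.Real

/-!
The abstract selection theorem for real stable multi-affine functions.
-/

namespace Pool.Agent.W676.KS

open H990SF

section
variable {U : Type*} [DecidableEq U]

/-- Stable multi-affine function which is real at real points. -/
structure Good (f : (U → ℂ) → ℂ) : Prop where
  ma : MA f
  st : Stab f
  re : RealOn f
  co : Continuous f

/-- The real function attached to a complex one. -/
def rl (f : (U → ℂ) → ℂ) : (U → ℝ) → ℝ := fun x => (f (fun i => (x i : ℂ))).re

lemma D_rl (f : (U → ℂ) → ℂ) (i : U) (x : U → ℝ) :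
    D i (rl f) x = (pd i f (fun i => (x i : ℂ))).re := by
  have h1 := ofReal_update x i 1
  have h0 := ofReal_update x i 0
  simp only [Complex.ofReal_one, Complex.ofReal_zero] at h1 h0
  simp only [D, rl, pd, h1, h0, Complex.sub_re]

lemma D_rl' (f : (U → ℂ) → ℂ) (i : U) : D i (rl f) = rl (pd i f) := by
  funext x; exact D_rl f i x

lemma Good.aff {f : (U → ℂ) → ℂ} (h : Good f) : Aff (rl f) := by
  intro x i t
  rw [D_rl]
  have := h.ma.line (fun i => (x i : ℂ)) i (t : ℂ)
  rw [ofReal_update] at this
  show (f _).re = (f _).re + _
  rw [this]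
  have e : ((t : ℂ) - (x i : ℂ)) = ((t - x i : ℝ) : ℂ) := by push_cast; ring
  rw [e, Complex.add_re, Complex.re_ofReal_mul]

lemma Good.ray {f : (U → ℂ) → ℂ} (h : Good f) : Ray (rl f) := by
  intro a c hac x
  have := rayleigh_of_stab h.ma h.st h.co h.re hac x
  rw [D_rl' f c, D_rl, D_rl]
  show (f _).re * _ ≤ _ * (pd c f _).re
  linarith

lemma Good.op {f : (U → ℂ) → ℂ} (h : Good f) {u v : U} (huv : u ≠ v) :
    Good (fun z => f z - pd u (pd v f) z) where
  ma := by
    have := h.ma.sub_smul ((h.ma.pd v).pd u) 1
    simpa using this
  st := by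
    have := h.st.op h.ma huv (w := 1) zero_le_one
    simpa using this
  re := by
    have := h.re.sub_smul ((h.re.pd v).pd u) 1
    simpa using this
  co := h.co.sub (cont_pd (cont_pd h.co v) u)

lemma rl_op {f : (U → ℂ) → ℂ} {u v : U} :
    rl (fun z => f z - pd u (pd v f) z) = op u v (rl f) := by
  funext x
  show (f _ - pd u (pd v f) _).re = rl f x - D u (D v (rl f)) x
  rw [D_rl' f v, D_rl, Complex.sub_re]; rfl

end

variable {I : Type*} [DecidableEq I] [Fintype I]

/-- The iterated operators. -/
def cP (F : (I × Bool → ℂ) → ℂ) : List I → ((I × Bool → ℂ) → ℂ)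
  | [] => F
  | i :: L => fun z => cP F L z - pd (i, false) (pd (i, true) (cP F L)) z

omit [Fintype I] [DecidableEq I] in
lemma ne_ft (i : I) : ((i, false) : I × Bool) ≠ (i, true) := by simp

omit [Fintype I] in
lemma good_cP {F : (I × Bool → ℂ) → ℂ} (hF : Good F) (L : List I) : Good (cP F L) := by
  induction L with
  | nil => exact hF
  | cons i L ih => exact ih.op (ne_ft i)

omit [Fintype I] in
lemma rl_cP_cons (F : (I × Bool → ℂ) → ℂ) (i : I) (L : List I) :
    rl (cP F (i :: L)) = op (i, false) (i, true) (rl (cP F L)) := rl_op

/-- Barrier point. -/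
def zpt (t η : ℝ) (L : List I) : I × Bool → ℝ := fun e => if e.1 ∈ L then t + η else t

lemma barrier {F : (I × Bool → ℂ) → ℂ} (hF : Good F) {t η φ : ℝ} (h0 : 0 ≤ η) (h1 : η ≤ 1)
    (hφ : 2 * φ ≤ η) (hab : Above (rl F) (fun _ => t))
    (hD : ∀ e, D e (rl F) (fun _ => t) ≤ φ * rl F (fun _ => t)) (L : List I) (hL : L.Nodup) :
    Above (rl (cP F L)) (zpt t η L) ∧
      ∀ e : I × Bool, e.1 ∉ L → D e (rl (cP F L)) (zpt t η L) ≤ φ * rl (cP F L) (zpt t η L) := by
  induction L with
  | nil =>
    have : (zpt t η ([] : List I)) = fun _ => t := by funext e; simp [zpt]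
    rw [this]
    exact ⟨hab, fun e _ => hD e⟩
  | cons i L ih =>
    have hi : i ∉ L := (List.nodup_cons.1 hL).1
    obtain ⟨ihA, ihD⟩ := ih (List.nodup_cons.1 hL).2
    set z := zpt t η L with hz
    set w := zpt t η (i :: L) with hw
    have hlow : z = low (i, false) (i, true) η w := by
      funext e
      obtain ⟨j, b⟩ := e
      by_cases hji : j = i
      · subst hji
        cases b
        · simp [hz, hw, zpt, low, hi]
        · simp [hz, hw, zpt, low, hi]
      · have n1 : ((j, b) : I × Bool) ≠ (i, true) := by simp [hji]
        have n2 : ((j, b) : I × Bool) ≠ (i, false) := by simp [hji]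
        simp only [low, Function.update_of_ne n1, Function.update_of_ne n2]
        simp [hz, hw, zpt, hji]
    have hg := good_cP hF L
    have hz0 := ihA z le_rfl
    have hφ' : D (i, false) (rl (cP F L)) z + D (i, true) (rl (cP F L)) z ≤
        η * rl (cP F L) z := by
      have a1 := ihD (i, false) hi
      have a2 := ihD (i, true) hi
      nlinarith
    rw [rl_cP_cons]
    constructor
    · intro w' hw'
      apply barrier_pos hg.aff hg.ray ihA (ne_ft i) hφ'
      rw [hlow]
      intro e
      have := hw' e
      by_cases e1 : e = (i, true)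
      · subst e1; simp only [low, Function.update_self]; linarith
      · by_cases e2 : e = (i, false)
        · subst e2
          simp only [low, Function.update_of_ne (ne_ft i), Function.update_self]; linarith
        · simp only [low, Function.update_of_ne e1, Function.update_of_ne e2]; exact this
    · intro e he
      have he1 : e ≠ (i, false) := by rintro rfl; simp at he
      have he2 : e ≠ (i, true) := by rintro rfl; simp at he
      have he3 : e.1 ∉ L := fun h => he (List.mem_cons_of_mem _ h)
      have hn := barrier_next hg.aff hg.ray ihA (ne_ft i) h0 h1 hφ' hlow he1 he2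
      have hd := ihD e he3
      have hpos : 0 < op (i, false) (i, true) (rl (cP F L)) w :=
        barrier_pos hg.aff hg.ray ihA (ne_ft i) hφ' (by rw [← hlow])
      have : D e (op (i, false) (i, true) (rl (cP F L))) w * rl (cP F L) z ≤
          (φ * op (i, false) (i, true) (rl (cP F L)) w) * rl (cP F L) z := by
        nlinarith
      exact le_of_mul_le_mul_right this hz0

/-- Point of a partial selection. -/
def ypt (lam : ℝ) (L : List I) (σ : I → Bool) : I × Bool → ℝ :=
  fun e => if e.1 ∈ L then lam - 1 else if σ e.1 = e.2 then lam - 2 else lam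

lemma selection {F : (I × Bool → ℂ) → ℂ} (hF : Good F) {t η φ lam : ℝ} (h0 : 0 ≤ η)
    (h1 : η ≤ 1) (hφ : 2 * φ ≤ η) (hlam : t + η ≤ lam - 1) (hab : Above (rl F) (fun _ => t))
    (hD : ∀ e, D e (rl F) (fun _ => t) ≤ φ * rl F (fun _ => t)) (L : List I) (hL : L.Nodup)
    (h : ∃ σ, Above (rl (cP F L)) (ypt lam L σ)) : ∃ σ, Above (rl F) (ypt lam [] σ) := by
  induction L with
  | nil => exact h
  | cons i L ih =>
    have hi : i ∉ L := (List.nodup_cons.1 hL).1
    apply ih (List.nodup_cons.1 hL).2
    obtain ⟨σ, hσ⟩ := h
    have hg := good_cP hF L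
    have hbar := (barrier hF h0 h1 hφ hab hD L (List.nodup_cons.1 hL).2).1
    set H := rl (cP F L) with hH
    -- the base point
    set y0 : I × Bool → ℝ := fun e => if e.1 = i then lam else ypt lam L σ e with hy0
    have hpar : ∀ w, y0 ≤ w → 0 < H w - D (i, false) H w - D (i, true) H w := by
      intro w hw
      set w' := low (i, false) (i, true) 1 w with hw'
      have hback : low (i, false) (i, true) (-1) w' = w := by
        funext e
        by_cases e1 : e = (i, true)
        · subst e1; simp [hw', low]
        · by_cases e2 : e = (i, false)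
          · subst e2; simp [hw', low]
          · simp [hw', low, Function.update_of_ne e1, Function.update_of_ne e2]
      have h2 := op_low hg.aff (ne_ft i) (-1) w'
      rw [hback] at h2
      have h3 : 0 < op (i, false) (i, true) H w' := by
        rw [← rl_cP_cons]
        apply hσ
        intro e
        obtain ⟨j, b⟩ := e
        have hwe := hw (j, b)
        by_cases hji : j = i
        · subst hji
          have hwe' : lam ≤ w (j, b) := by simpa [hy0] using hwe
          cases b
          · simp only [hw', low, Function.update_of_ne (ne_ft j), Function.update_self]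
            simp only [ypt, List.mem_cons, true_or, if_true]; linarith
          · simp only [hw', low, Function.update_self]
            simp only [ypt, List.mem_cons, true_or, if_true]; linarith
        · have n1 : ((j, b) : I × Bool) ≠ (i, true) := by simp [hji]
          have n2 : ((j, b) : I × Bool) ≠ (i, false) := by simp [hji]
          simp only [hw', low, Function.update_of_ne n1, Function.update_of_ne n2]
          simpa [hy0, ypt, hji] using hwe
      rw [h2] at h3
      linarith
    have key : ∀ b : Bool, (∀ w, y0 ≤ w → 0 < H w - 2 * D (i, b) H w) →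
        ∃ σ, Above H (ypt lam L σ) := by
      intro b hb
      refine ⟨Function.update σ i b, ?_⟩
      intro w hw
      have hsw := hb (Function.update w (i, b) (w (i, b) + 2)) (by
        intro e
        obtain ⟨j, c⟩ := e
        have hwe := hw (j, c)
        by_cases hji : j = i
        · subst hji
          by_cases hcb : c = b
          · subst hcb
            simp only [Function.update_self, hy0, if_true]
            simp only [ypt, hi, if_false, Function.update_self, if_true] at hwe
            linarith
          · have n1 : ((j, c) : I × Bool) ≠ (j, b) := by simp [hcb]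
            simp only [Function.update_of_ne n1, hy0, if_true]
            simp only [ypt, hi, if_false, Function.update_self] at hwe
            rwa [if_neg (fun h => hcb h.symm)] at hwe
        · have n1 : ((j, c) : I × Bool) ≠ (i, b) := by simp [hji]
          simp only [Function.update_of_ne n1]
          simpa [hy0, ypt, hji, Function.update_of_ne hji] using hwe)
      have hl : H (Function.update w (i, b) (w (i, b) + 2)) =
          H w + (w (i, b) + 2 - w (i, b)) * D (i, b) H w := hg.aff w (i, b) (w (i, b) + 2)
      rw [D_update_self, hl] at hsw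
      linarith
    rcases select_step hg.aff hg.ray hbar hpar with h | h
    · exact key false h
    · exact key true h

/-- Abstract selection theorem. -/
theorem abstract_selection {F : (I × Bool → ℂ) → ℂ} (hF : Good F) {t η φ lam : ℝ} (h0 : 0 ≤ η)
    (h1 : η ≤ 1) (hφ : 2 * φ ≤ η) (hlam : t + η ≤ lam - 1) (hab : Above (rl F) (fun _ => t))
    (hD : ∀ e, D e (rl F) (fun _ => t) ≤ φ * rl F (fun _ => t)) :
    ∃ σ : I → Bool, Above (rl F) (fun e => if σ e.1 = e.2 then lam - 2 else lam) := by
  have hnd := Finset.nodup_toList (Finset.univ : Finset I)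
  obtain ⟨σ, hσ⟩ := selection hF h0 h1 hφ hlam hab hD (Finset.univ : Finset I).toList hnd (by
    refine ⟨fun _ => true, ?_⟩
    intro w hw
    apply (barrier hF h0 h1 hφ hab hD _ hnd).1
    intro e
    have := hw e
    simp only [ypt, zpt, Finset.mem_toList, Finset.mem_univ, if_true] at this ⊢
    linarith)
  refine ⟨σ, ?_⟩
  intro w hw
  apply hσ
  intro e
  have := hw e
  simpa [ypt] using this

end Pool.Agent.W676.KS
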