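import Pool.Agent.W676.KS.Abs

/-!
The determinant of a combination of rank one matrices as a real stable multi-affine function, and
the selection theorem for vectors.
-/

namespace Pool.Agent.W676.KS

open Matrix H990SF
open scoped ComplexOrder

section
variable {n : Type*} [Fintype n] [DecidableEq n]

lemma det_add_smul_vec (A : Matrix n n ℂ) (u w : n → ℂ) (t : ℂ) :
    (A + t • vecMulVec u w).det = A.det + t * ((A + vecMulVec u w).det - A.det) := by
  have key : ∀ s : ℂ, (A + s • vecMulVec u w).det =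
      A.det + s * (((fromBlocks A 0 (replicateRow Unit w) 1 :
        Matrix (n ⊕ Unit) (n ⊕ Unit) ℂ).updateCol (Sum.inr ())
          (Sum.elim (-u) 0)).det) := by
    intro s
    set M : Matrix (n ⊕ Unit) (n ⊕ Unit) ℂ := fromBlocks A 0 (replicateRow Unit w) 1 with hM
    have e1 : (fromBlocks A (replicateCol Unit (-(s • u))) (replicateRow Unit w) 1 :
        Matrix (n ⊕ Unit) (n ⊕ Unit) ℂ) =
        M.updateCol (Sum.inr ()) (s • (Sum.elim (-u) 0) + M.col (Sum.inr ())) := by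
      ext i j
      rcases i with i | i <;> rcases j with j | j <;>
        simp [hM]
    have e2 : A + s • vecMulVec u w =
        A - replicateCol Unit (-(s • u)) * replicateRow Unit w := by
      ext i j
      simp [vecMulVec_apply, Matrix.mul_apply, mul_assoc]
    rw [e2, ← det_fromBlocks_one₂₂, e1, det_updateCol_add, det_updateCol_smul]
    have e3 : M.updateCol (Sum.inr ()) (M.col (Sum.inr ())) = M := by
      ext i j
      by_cases h : j = Sum.inr ()
      · subst h; simp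
      · simp [h]
    rw [e3]
    have e4 : M.det = A.det := by
      rw [hM, det_fromBlocks_one₂₂]; simp
    rw [e4]; ring
  have h1 := key 1
  rw [one_smul, one_mul] at h1
  rw [key t, h1]; ring

end

variable {n : Type*} [Fintype n] [DecidableEq n] {E : Type*} [Fintype E] [DecidableEq E]

/-- combination of rank one matrices -/
noncomputable def Mz (v : E → n → ℂ) (z : E → ℂ) : Matrix n n ℂ :=
  ∑ e, z e • vecMulVec (v e) (star (v e))

omit [DecidableEq n] [Fintype n] in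
lemma Mz_update (v : E → n → ℂ) (z : E → ℂ) (i : E) (t : ℂ) :
    Mz v (Function.update z i t) = Mz v (Function.update z i 0) +
      t • vecMulVec (v i) (star (v i)) := by
  unfold Mz
  rw [← Finset.add_sum_erase _ _ (Finset.mem_univ i),
    ← Finset.add_sum_erase (a := i) _ _ (Finset.mem_univ i)]
  simp only [Function.update_self, zero_smul, zero_add]
  rw [add_comm]
  congr 1
  apply Finset.sum_congr rfl
  intro e he
  rw [Function.update_of_ne (Finset.ne_of_mem_erase he),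
    Function.update_of_ne (Finset.ne_of_mem_erase he)]

/-- the determinant function -/
noncomputable def Fd (v : E → n → ℂ) (z : E → ℂ) : ℂ := (Mz v z).det

lemma ma_Fd (v : E → n → ℂ) : MA (Fd v) := by
  intro z i t
  unfold Fd
  rw [Mz_update v z i t, det_add_smul_vec, Mz_update v z i 1, one_smul]

omit [DecidableEq n] [DecidableEq E] in
lemma quad (v : E → n → ℂ) (z : E → ℂ) (ξ : n → ℂ) :
    star ξ ⬝ᵥ (Mz v z *ᵥ ξ) = ∑ e, z e * ((‖star (v e) ⬝ᵥ ξ‖ ^ 2 : ℝ) : ℂ) := by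
  unfold Mz
  rw [Matrix.sum_mulVec, dotProduct_sum]
  apply Finset.sum_congr rfl
  intro e _
  rw [smul_mulVec, dotProduct_smul, vecMulVec_mulVec, dotProduct_smul, smul_eq_mul,
    MulOpposite.smul_eq_mul_unop]
  congr 1
  simp only [MulOpposite.unop_op]
  have : star ξ ⬝ᵥ v e = star (star (v e) ⬝ᵥ ξ) := by
    rw [star_dotProduct]
  rw [this]
  have h := Complex.normSq_eq_norm_sq (star (v e) ⬝ᵥ ξ)
  rw [← h]
  rw [mul_comm, Complex.star_def, Complex.mul_conj]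

omit [DecidableEq n] [DecidableEq E] in
lemma herm (v : E → n → ℂ) (x : E → ℝ) : (Mz v (fun e => (x e : ℂ))).IsHermitian := by
  unfold Mz Matrix.IsHermitian
  rw [conjTranspose_sum]
  apply Finset.sum_congr rfl
  intro e _
  rw [conjTranspose_smul]
  have : (vecMulVec (v e) (star (v e)))ᴴ = vecMulVec (v e) (star (v e)) :=
    (posSemidef_vecMulVec_self_star (v e)).1
  rw [this]; simp

/-- the vectors are spanning -/
def Span (v : E → n → ℂ) : Prop := ∀ ξ : n → ℂ, (∀ e, star (v e) ⬝ᵥ ξ = 0) → ξ = 0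

omit [DecidableEq E] in
lemma stab_Fd {v : E → n → ℂ} (hv : Span v) : Stab (Fd v) := by
  intro z hz h0
  obtain ⟨ξ, hξ, hM⟩ := exists_mulVec_eq_zero_iff.2 h0
  apply hξ
  have h := quad v z ξ
  rw [hM, dotProduct_zero] at h
  have him := congrArg Complex.im h
  rw [Complex.im_sum] at him
  simp only [Complex.zero_im, Complex.mul_im, Complex.ofReal_re, Complex.ofReal_im, mul_zero,
    zero_add] at him
  apply hv
  intro e
  have hnn : ∀ e ∈ Finset.univ, 0 ≤ (z e).im * ‖star (v e) ⬝ᵥ ξ‖ ^ 2 :=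
    fun e _ => mul_nonneg (hz e).le (sq_nonneg _)
  have := (Finset.sum_eq_zero_iff_of_nonneg hnn).1 him.symm e (Finset.mem_univ e)
  rcases mul_eq_zero.1 this with h1 | h1
  · exact absurd h1 (hz e).ne'
  · simpa using h1

omit [DecidableEq E] in
lemma real_Fd (v : E → n → ℂ) : RealOn (Fd v) := by
  intro x
  have h := (herm v x)
  have h2 : star ((Mz v (fun e => (x e : ℂ))).det) = (Mz v (fun e => (x e : ℂ))).det := by
    rw [← det_conjTranspose, h]
  exact Complex.conj_eq_iff_im.1 h2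

omit [DecidableEq E] in
lemma cont_Fd (v : E → n → ℂ) : Continuous (Fd v) := by
  unfold Fd Mz
  apply Continuous.matrix_det
  exact continuous_finsetSum _ (fun e _ => (continuous_apply e).smul continuous_const)

lemma good_Fd {v : E → n → ℂ} (hv : Span v) : Good (Fd v) :=
  ⟨ma_Fd v, stab_Fd hv, real_Fd v, cont_Fd v⟩

omit [DecidableEq n] [DecidableEq E] in
lemma pos_def {v : E → n → ℂ} (hv : Span v) {x : E → ℝ} (hx : ∀ e, 0 < x e) :
    (Mz v (fun e => (x e : ℂ))).PosDef := by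
  refine PosDef.of_dotProduct_mulVec_pos (herm v x) ?_
  intro ξ hξ
  rw [quad]
  have e : ∑ e, (x e : ℂ) * ((‖star (v e) ⬝ᵥ ξ‖ ^ 2 : ℝ) : ℂ) =
      ((∑ e, x e * ‖star (v e) ⬝ᵥ ξ‖ ^ 2 : ℝ) : ℂ) := by push_cast; rfl
  rw [e]
  rw [Complex.zero_lt_real]
  have hnn : ∀ e ∈ Finset.univ, 0 ≤ x e * ‖star (v e) ⬝ᵥ ξ‖ ^ 2 :=
    fun e _ => mul_nonneg (hx e).le (sq_nonneg _)
  apply lt_of_le_of_ne (Finset.sum_nonneg hnn)
  intro h0
  apply hξ
  apply hv
  intro e
  have := (Finset.sum_eq_zero_iff_of_nonneg hnn).1 h0.symm e (Finset.mem_univ e)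
  rcases mul_eq_zero.1 this with h1 | h1
  · exact absurd h1 (hx e).ne'
  · simpa using h1

omit [DecidableEq E] in
lemma rl_Fd_pos {v : E → n → ℂ} (hv : Span v) {x : E → ℝ} (hx : ∀ e, 0 < x e) :
    0 < rl (Fd v) x := by
  have := (pos_def hv hx).det_pos
  exact (Complex.pos_iff.1 this).1

lemma D_Fd_le {v : E → n → ℂ} (hv : Span v) {t ε : ℝ} (ht : 0 < t) (hε0 : 0 ≤ ε) (e : E)
    (hε : ∀ ξ : n → ℂ, ‖star (v e) ⬝ᵥ ξ‖ ^ 2 ≤ ε * ∑ e', ‖star (v e') ⬝ᵥ ξ‖ ^ 2) :
    D e (rl (Fd v)) (fun _ => t) ≤ (ε / t) * rl (Fd v) (fun _ => t) := by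
  set A := Mz v (fun _ => (t : ℂ)) with hA
  have hpd : A.PosDef := pos_def hv (x := fun _ => t) (fun _ => ht)
  have hdet := hpd.det_pos
  have hu : IsUnit A.det := hdet.ne'.isUnit
  have hu' : IsUnit A := hpd.isUnit
  -- value at the shifted point
  have h1 := (good_Fd hv).aff (fun _ => t) e (t + 1)
  have h2 : (fun i => ((Function.update (fun _ => t) e (t + 1) i : ℝ) : ℂ)) =
      Function.update (fun _ => (t : ℂ)) e ((t : ℂ) + 1) := by
    have := ofReal_update (fun _ : E => t) e (t + 1)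
    rw [← this]; push_cast; rfl
  have h3 : Mz v (Function.update (fun _ => (t : ℂ)) e ((t : ℂ) + 1)) =
      A + vecMulVec (v e) (star (v e)) := by
    have a1 := Mz_update v (fun _ => (t : ℂ)) e ((t : ℂ) + 1)
    have a2 := Mz_update v (fun _ => (t : ℂ)) e (t : ℂ)
    rw [Function.update_eq_self_iff.2 rfl] at a2
    rw [a1, hA, a2, add_smul, one_smul, add_assoc]
  set ξ : n → ℂ := A⁻¹ *ᵥ v e with hξ
  have hAξ : A *ᵥ ξ = v e := by
    rw [hξ, mulVec_mulVec, mul_nonsing_inv _ hu, one_mulVec]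
  set τ : ℂ := star (v e) ⬝ᵥ ξ with hτ
  have h4 : (A + vecMulVec (v e) (star (v e))).det = A.det * (1 + τ) := by
    have e1 : vecMulVec (v e) (star (v e)) =
        replicateCol Unit (v e) * replicateRow Unit (star (v e)) := by
      ext i j; simp [vecMulVec_apply, Matrix.mul_apply]
    rw [e1, det_add_replicateCol_mul_replicateRow hu]
    congr 1
    rw [det_unique, Matrix.add_apply, Matrix.one_apply_eq]
    congr 1
    rw [hτ, hξ, Matrix.mul_assoc]
    simp [Matrix.mul_apply, dotProduct, mulVec]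
  have h5 := quad v (fun _ => (t : ℂ)) ξ
  rw [← hA, hAξ] at h5
  have h6 : star ξ ⬝ᵥ v e = star τ := by rw [hτ, star_dotProduct]
  rw [h6] at h5
  set q : ℝ := ∑ e', ‖star (v e') ⬝ᵥ ξ‖ ^ 2 with hq
  have h7 : ∑ e', (t : ℂ) * ((‖star (v e') ⬝ᵥ ξ‖ ^ 2 : ℝ) : ℂ) = ((t * q : ℝ) : ℂ) := by
    rw [hq, Finset.mul_sum]; push_cast; rfl
  rw [h7] at h5
  have h8 : τ = ((t * q : ℝ) : ℂ) := by
    have := congrArg star h5
    rw [star_star] at this
    rw [this, Complex.star_def, Complex.conj_ofReal]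
  have hq0 : 0 ≤ q := Finset.sum_nonneg (fun _ _ => sq_nonneg _)
  have h9 := hε ξ
  rw [← hτ, h8, ← hq, Complex.norm_real, Real.norm_eq_abs, sq_abs] at h9
  have h10 : t * q ≤ ε / t := by
    rw [le_div_iff₀ ht]
    by_cases hz : q = 0
    · rw [hz]; simpa using hε0
    · have hqp : 0 < q := lt_of_le_of_ne hq0 (Ne.symm hz)
      have : (t * q * t) * q ≤ ε * q := by nlinarith
      exact le_of_mul_le_mul_right this hqp
  have h11 : rl (Fd v) (Function.update (fun _ => t) e (t + 1)) = A.det.re * (1 + t * q) := by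
    show (Mz v _).det.re = _
    rw [h2, h3, h4, h8]
    have : (1 : ℂ) + ((t * q : ℝ) : ℂ) = ((1 + t * q : ℝ) : ℂ) := by push_cast; ring
    rw [this, Complex.re_mul_ofReal]
  have h12 : rl (Fd v) (fun _ => t) = A.det.re := rfl
  rw [h11, h12] at h1
  have h13 : D e (rl (Fd v)) (fun _ => t) = A.det.re * (t * q) := by
    have : t + 1 - t = 1 := by ring
    rw [this] at h1
    linarith
  rw [h13, h12]
  have hdr : 0 < A.det.re := (Complex.pos_iff.1 hdet).1
  nlinarith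

omit [DecidableEq n] [DecidableEq E] in
lemma quad_re (v : E → n → ℂ) (x : E → ℝ) (ξ : n → ℂ) :
    star ξ ⬝ᵥ (Mz v (fun e => (x e : ℂ)) *ᵥ ξ) =
      ((∑ e, x e * ‖star (v e) ⬝ᵥ ξ‖ ^ 2 : ℝ) : ℂ) := by
  rw [quad]; push_cast; rfl

omit [DecidableEq E] in
/-- From positivity of the determinants above `y` to positivity of the form. -/
lemma form_nonneg {v : E → n → ℂ} (hv : Span v) {y : E → ℝ} (hy : Above (rl (Fd v)) y)
    (ξ : n → ℂ) : 0 ≤ ∑ e, y e * ‖star (v e) ⬝ᵥ ξ‖ ^ 2 := by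
  classical
  by_contra hneg
  push Not at hneg
  -- the two forms
  let q : (n → ℂ) → ℝ := fun ξ => ∑ e, y e * ‖star (v e) ⬝ᵥ ξ‖ ^ 2
  let τ : (n → ℂ) → ℝ := fun ξ => ∑ e, ‖star (v e) ⬝ᵥ ξ‖ ^ 2
  have hcont : ∀ e, Continuous fun ξ : n → ℂ => ‖star (v e) ⬝ᵥ ξ‖ ^ 2 := fun e =>
    (Continuous.norm (by unfold dotProduct; fun_prop)).pow 2
  have hqc : Continuous q := continuous_finsetSum _ (fun e _ => (hcont e).const_mul _)
  have hτc : Continuous τ := continuous_finsetSum _ (fun e _ => hcont e)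
  have hτpos : ∀ η : n → ℂ, η ≠ 0 → 0 < τ η := by
    intro η hη
    have hnn : ∀ e ∈ Finset.univ, 0 ≤ ‖star (v e) ⬝ᵥ η‖ ^ 2 := fun e _ => sq_nonneg _
    apply lt_of_le_of_ne (Finset.sum_nonneg hnn)
    intro h0
    apply hη
    apply hv
    intro e
    have := (Finset.sum_eq_zero_iff_of_nonneg hnn).1 h0.symm e (Finset.mem_univ e)
    simpa using this
  have hξ0 : ξ ≠ 0 := by
    rintro rfl
    simp at hneg
  have hscale : ∀ (c : ℝ) (η : n → ℂ), q ((c : ℂ) • η) = c ^ 2 * q η ∧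
      τ ((c : ℂ) • η) = c ^ 2 * τ η := by
    intro c η
    have e1 : ∀ e, ‖star (v e) ⬝ᵥ ((c : ℂ) • η)‖ ^ 2 = c ^ 2 * ‖star (v e) ⬝ᵥ η‖ ^ 2 := by
      intro e
      rw [dotProduct_smul, smul_eq_mul, norm_mul, mul_pow, Complex.norm_real, Real.norm_eq_abs,
        sq_abs]
    constructor
    · show ∑ e, _ = c ^ 2 * ∑ e, _
      rw [Finset.mul_sum]
      exact Finset.sum_congr rfl (fun e _ => by rw [e1]; ring)
    · show ∑ e, _ = c ^ 2 * ∑ e, _
      rw [Finset.mul_sum]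
      exact Finset.sum_congr rfl (fun e _ => by rw [e1])
  have hne : (Metric.sphere (0 : n → ℂ) 1).Nonempty := by
    refine ⟨((‖ξ‖⁻¹ : ℝ) : ℂ) • ξ, ?_⟩
    rw [mem_sphere_zero_iff_norm, norm_smul, Complex.norm_real, norm_inv, norm_norm,
      inv_mul_cancel₀ (norm_ne_zero_iff.2 hξ0)]
  have hsph : ∀ η ∈ Metric.sphere (0 : n → ℂ) 1, η ≠ 0 := by
    rintro η hη rfl
    simp at hη
  obtain ⟨η, hη, hmin⟩ := (isCompact_sphere (0 : n → ℂ) 1).exists_isMinOn hne
    (f := fun η => q η / τ η)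
    (hqc.continuousOn.div hτc.continuousOn (fun η hη => (hτpos η (hsph η hη)).ne'))
  set μ : ℝ := q η / τ η with hμ
  have hη0 := hsph η hη
  have hall : ∀ ζ : n → ℂ, μ * τ ζ ≤ q ζ := by
    intro ζ
    by_cases hz : ζ = 0
    · subst hz
      have h1 : τ 0 = 0 := by simp [τ]
      have h2 : q 0 = 0 := by simp [q]
      rw [h1, h2]; simp
    · have hm : ((‖ζ‖⁻¹ : ℝ) : ℂ) • ζ ∈ Metric.sphere (0 : n → ℂ) 1 := by
        rw [mem_sphere_zero_iff_norm, norm_smul, Complex.norm_real, norm_inv, norm_norm,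
          inv_mul_cancel₀ (norm_ne_zero_iff.2 hz)]
      have h1 : μ ≤ q (((‖ζ‖⁻¹ : ℝ) : ℂ) • ζ) / τ (((‖ζ‖⁻¹ : ℝ) : ℂ) • ζ) := hmin hm
      rw [(hscale _ ζ).1, (hscale _ ζ).2] at h1
      have hn : (‖ζ‖⁻¹) ^ 2 ≠ 0 := pow_ne_zero _ (inv_ne_zero (norm_ne_zero_iff.2 hz))
      rw [mul_div_mul_left _ _ hn, le_div_iff₀ (hτpos ζ hz)] at h1
      exact h1
  have hμneg : μ < 0 := by
    have h1 := hall ξ
    by_contra hge
    push Not at hge
    have := mul_nonneg hge (hτpos ξ hξ0).le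
    have h2 : q ξ < 0 := hneg
    linarith
  -- the matrix with a kernel
  set x : E → ℝ := fun e => y e - μ with hx
  have hform : ∀ ζ : n → ℂ, ∑ e, x e * ‖star (v e) ⬝ᵥ ζ‖ ^ 2 = q ζ - μ * τ ζ := by
    intro ζ
    show _ = (∑ e, y e * _) - μ * ∑ e, _
    rw [Finset.mul_sum, ← Finset.sum_sub_distrib]
    exact Finset.sum_congr rfl (fun e _ => by rw [hx]; ring)
  have hpsd : (Mz v (fun e => (x e : ℂ))).PosSemidef := by
    refine PosSemidef.of_dotProduct_mulVec_nonneg (herm v x) ?_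
    intro ζ
    rw [quad_re, hform, Complex.zero_le_real]
    have := hall ζ
    linarith
  have hker : star η ⬝ᵥ (Mz v (fun e => (x e : ℂ)) *ᵥ η) = 0 := by
    rw [quad_re, hform]
    have : q η - μ * τ η = 0 := by
      rw [hμ]; field_simp [(hτpos η hη0).ne']; ring
    rw [this]; simp
  have hk2 := (hpsd.dotProduct_mulVec_zero_iff η).1 hker
  have hdet : (Mz v (fun e => (x e : ℂ))).det = 0 := exists_mulVec_eq_zero_iff.1 ⟨η, hη0, hk2⟩
  have hp := hy x (fun e => by rw [hx]; simp only; linarith)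
  have : rl (Fd v) x = 0 := by
    show (Mz v (fun e => (x e : ℂ))).det.re = 0
    rw [hdet]; simp
  linarith

/-- **Selection theorem for pairs of vectors** (a form of the Marcus-Spielman-Srivastava
theorem). -/
theorem pair_selection {I : Type*} [Fintype I] [DecidableEq I] {v : I × Bool → n → ℂ}
    (hv : Span v) {ε : ℝ} (hε0 : 0 < ε) (hε1 : 2 * ε ≤ 1)
    (hε : ∀ e, ∀ ξ : n → ℂ, ‖star (v e) ⬝ᵥ ξ‖ ^ 2 ≤ ε * ∑ e', ‖star (v e') ⬝ᵥ ξ‖ ^ 2) :
    ∃ σ : I → Bool, ∀ ξ : n → ℂ, (1 / 2 - √(2 * ε)) * ∑ e, ‖star (v e) ⬝ᵥ ξ‖ ^ 2 ≤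
      ∑ i, ‖star (v (i, σ i)) ⬝ᵥ ξ‖ ^ 2 := by
  set t : ℝ := √(2 * ε) with ht
  have ht0 : 0 < t := Real.sqrt_pos.2 (by linarith)
  have htt : t * t = 2 * ε := Real.mul_self_sqrt (by linarith)
  have ht1 : t ≤ 1 := by nlinarith
  obtain ⟨σ, hσ⟩ := abstract_selection (good_Fd hv) (t := t) (η := t) (φ := ε / t)
    (lam := 1 + 2 * t) ht0.le ht1
    (by rw [mul_div_assoc', div_le_iff₀ ht0]; linarith)
    (by linarith)
    (fun w hw => rl_Fd_pos hv (fun e => lt_of_lt_of_le ht0 (hw e)))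
    (fun e => D_Fd_le hv ht0 hε0.le e (hε e))
  refine ⟨fun i => !(σ i), fun ξ => ?_⟩
  have h := form_nonneg hv hσ ξ
  have e1 : ∑ e : I × Bool, (if σ e.1 = e.2 then 1 + 2 * t - 2 else 1 + 2 * t) *
      ‖star (v e) ⬝ᵥ ξ‖ ^ 2 =
      ∑ i, ((1 + 2 * t) * (‖star (v (i, true)) ⬝ᵥ ξ‖ ^ 2 + ‖star (v (i, false)) ⬝ᵥ ξ‖ ^ 2)
        - 2 * ‖star (v (i, σ i)) ⬝ᵥ ξ‖ ^ 2) := by
    rw [Fintype.sum_prod_type]
    apply Finset.sum_congr rfl
    intro i _
    rw [Fintype.sum_bool]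
    cases σ i
    · simp; ring
    · simp; ring
  have e2 : ∑ e : I × Bool, ‖star (v e) ⬝ᵥ ξ‖ ^ 2 =
      ∑ i, (‖star (v (i, true)) ⬝ᵥ ξ‖ ^ 2 + ‖star (v (i, false)) ⬝ᵥ ξ‖ ^ 2) := by
    rw [Fintype.sum_prod_type]
    exact Finset.sum_congr rfl (fun i _ => by rw [Fintype.sum_bool])
  have e3 : ∑ i, (‖star (v (i, true)) ⬝ᵥ ξ‖ ^ 2 + ‖star (v (i, false)) ⬝ᵥ ξ‖ ^ 2) =
      ∑ i, ‖star (v (i, σ i)) ⬝ᵥ ξ‖ ^ 2 + ∑ i, ‖star (v (i, !(σ i))) ⬝ᵥ ξ‖ ^ 2 := by
    rw [← Finset.sum_add_distrib]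
    apply Finset.sum_congr rfl
    intro i _
    cases σ i
    · simp; ring
    · simp
  rw [e1, Finset.sum_sub_distrib, ← Finset.mul_sum, ← Finset.mul_sum, e3] at h
  rw [e2, e3]
  nlinarith

end Pool.Agent.W676.KS
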